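import Pool.Agent.H75.OM.TD

/-!
# Row NMA of `omn_modules`: the first numerical conditions
-/

set_option autoImplicit false

namespace Pool.Agent.H23.OM

open Finset Pool.Agent.H6.NB Pool.Agent.H70.OQ Pool.Agent.H70.EH Pool.Agent.H70.EI
  Pool.Agent.H78.XQ Pool.Agent.H75.OM

theorem poly_exp (C d : ℕ) : ∃ t₀ : ℕ, ∀ t, t₀ ≤ t → C * t ^ d ≤ 2 ^ t := by
  have h := tendsto_pow_const_div_const_pow_of_one_lt d (one_lt_two : (1 : ℝ) < 2)
  have hC : (0 : ℝ) < 1 / ((C : ℝ) + 1) := by positivity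
  obtain ⟨t₀, h0⟩ := Filter.eventually_atTop.1 (h.eventually_lt_const hC)
  refine ⟨t₀, fun t ht => ?_⟩
  have h1 := h0 t ht
  have h2 : (0 : ℝ) < 2 ^ t := by positivity
  rw [div_lt_div_iff₀ h2 (by positivity)] at h1
  have h3 : (C : ℝ) * (t : ℝ) ^ d ≤ 2 ^ t := by
    have : (0 : ℝ) ≤ (t : ℝ) ^ d := by positivity
    linarith
  exact_mod_cast h3

theorem mm_ge (k s t₀ : ℕ) (h : 2 ^ t₀ ≤ s) : t₀ ≤ mm k s := by
  unfold mm
  have h1 : 2 ^ t₀ ≤ (k + 4) * (s + 2) ^ 4 := by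
    calc 2 ^ t₀ ≤ s + 2 := by omega
      _ ≤ (s + 2) ^ 4 := Nat.le_self_pow (by norm_num) _
      _ ≤ (k + 4) * (s + 2) ^ 4 := Nat.le_mul_of_pos_left _ (by omega)
  have h2 := Nat.le_log_of_pow_le (by norm_num) h1
  omega

theorem mm_lt (k s : ℕ) : (k + 4) * (s + 2) ^ 4 < 2 ^ mm k s :=
  Nat.lt_pow_succ_log_self (by norm_num) _

theorem mm_le (k s : ℕ) : 2 ^ mm k s ≤ 2 * (k + 4) * (s + 2) ^ 4 := by
  unfold mm
  rw [pow_succ, mul_comm, mul_assoc]
  exact Nat.mul_le_mul_left _ (Nat.pow_log_le_self 2 (by positivity))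

/-- a bound for `omg` -/
theorem omg_le (l B : ℕ) (hB : 1 ≤ B) (hl : l ≤ B) : omg l + 1 ≤ 2170525697 * B ^ 4 := by
  unfold omg
  have h1 : 10 * l + 103 ≤ 113 * B := by omega
  have h2 : 32 * l + 300 ≤ 332 * B := by omega
  have h3 : 512 * (10 * l + 103) ^ 2 * l * (32 * l + 300) ≤
      512 * (113 * B) ^ 2 * B * (332 * B) := by gcongr
  have h4 : 1 ≤ B ^ 4 := Nat.one_le_pow _ _ hB
  have h5 : 512 * (113 * B) ^ 2 * B * (332 * B) = 2170525696 * B ^ 4 := by ring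
  have h6 : 2170525697 * B ^ 4 = 2170525696 * B ^ 4 + B ^ 4 := by ring
  rw [h6, ← h5]
  exact add_le_add h3 h4

theorem pf_NMA : T_NMA := by
  intro k
  set A : ℕ := 128 * (k + 13) * (k + 25) with hA
  set B : ℕ := 4 * (k + 13) * (k + 25) with hB
  obtain ⟨t₁, h1⟩ := poly_exp ((2170525697 * A ^ 4) ^ 32) 128
  set t₀ : ℕ := max (max t₁ 1) (32768 * B) with ht₀
  refine ⟨max (2 ^ t₀) (2 * (k + 4) + 4), fun s hs => ?_⟩
  have hs1 : 2 ^ t₀ ≤ s := (le_max_left _ _).trans hs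
  have hs2 : 2 * (k + 4) + 4 ≤ s := (le_max_right _ _).trans hs
  have ht : t₀ ≤ mm k s := mm_ge k s t₀ hs1
  have hlt := mm_lt k s
  have hle := mm_le k s
  set t := mm k s with hts
  have ht1 : t₁ ≤ t := ((le_max_left _ _).trans (le_max_left _ _)).trans ht
  have ht2 : 1 ≤ t := ((le_max_right _ _).trans (le_max_left _ _)).trans ht
  have ht3 : 32768 * B ≤ t := (le_max_right _ _).trans ht
  have hlin : t + k + 24 ≤ (k + 25) * t := by
    have : (k + 24) * 1 ≤ (k + 24) * t := Nat.mul_le_mul_left _ ht2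
    linarith
  have hlam : lam k s ≤ A * t := by
    unfold lam
    rw [← hts]
    calc 128 * (k + 13) * (t + k + 24) ≤ 128 * (k + 13) * ((k + 25) * t) :=
          Nat.mul_le_mul_left _ hlin
      _ = A * t := by rw [hA]; ring
  have hA1 : 1 ≤ A := by
    rw [hA]
    exact Nat.mul_pos (Nat.mul_pos (by norm_num) (Nat.succ_pos _)) (Nat.succ_pos _)
  have hom : omg (lam k s) + 1 ≤ 2170525697 * A ^ 4 * t ^ 4 := by
    have := omg_le (lam k s) (A * t) (Nat.mul_pos hA1 ht2) hlam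
    rw [mul_pow] at this
    rwa [mul_assoc]
  have hom2 : (omg (lam k s) + 1) ^ 32 ≤ 2 ^ t := by
    calc (omg (lam k s) + 1) ^ 32 ≤ (2170525697 * A ^ 4 * t ^ 4) ^ 32 := Nat.pow_le_pow_left hom _
      _ = (2170525697 * A ^ 4) ^ 32 * t ^ 128 := by rw [mul_pow _ (t ^ 4), ← pow_mul]
      _ ≤ 2 ^ t := h1 t ht1
  have hs3 : 2 ^ t * 2 ^ t ≤ s ^ 32 := by
    have e1 : s + 2 ≤ s ^ 2 := by nlinarith
    have e2 : 2 ^ t ≤ s ^ 9 := by
      calc 2 ^ t ≤ 2 * (k + 4) * (s + 2) ^ 4 := hle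
        _ ≤ s * (s ^ 2) ^ 4 := by
            refine Nat.mul_le_mul (by omega) (Nat.pow_le_pow_left e1 _)
        _ = s ^ 9 := by ring
    calc 2 ^ t * 2 ^ t ≤ s ^ 9 * s ^ 9 := Nat.mul_le_mul e2 e2
      _ = s ^ 18 := by ring
      _ ≤ s ^ 32 := Nat.pow_le_pow_right (by omega) (by norm_num)
  have key : ∀ σ : ℕ, σ ^ 3 ≤ 4 * (k + 13) * (t + k + 24) →
      2 ^ σ * (omg (lam k s) + 1) ≤ s := by
    intro σ hσ
    have h2 : 32 * σ ≤ t := by
      by_contra hcon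
      push Not at hcon
      have e1 : σ ^ 3 ≤ B * t := by
        calc σ ^ 3 ≤ 4 * (k + 13) * (t + k + 24) := hσ
          _ ≤ 4 * (k + 13) * ((k + 25) * t) := Nat.mul_le_mul_left _ hlin
          _ = B * t := by rw [hB]; ring
      have e2 : t ^ 3 < (32 * σ) ^ 3 := Nat.pow_lt_pow_left hcon (by norm_num)
      have e3 : (32 * σ) ^ 3 = 32768 * σ ^ 3 := by ring
      have e4 : t ^ 3 < 32768 * (B * t) := by
        rw [e3] at e2
        exact e2.trans_le (Nat.mul_le_mul_left _ e1)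
      have e5 : 32768 * (B * t) ≤ t * t := by
        calc 32768 * (B * t) = (32768 * B) * t := by ring
          _ ≤ t * t := Nat.mul_le_mul_right _ ht3
      have e6 : t * t ≤ t ^ 3 := by
        calc t * t = t ^ 2 := (sq t).symm
          _ ≤ t ^ 3 := Nat.pow_le_pow_right ht2 (by norm_num)
      omega
    have h3 : (2 ^ σ * (omg (lam k s) + 1)) ^ 32 ≤ s ^ 32 := by
      rw [mul_pow, ← pow_mul]
      refine le_trans ?_ hs3
      refine Nat.mul_le_mul ?_ hom2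
      exact Nat.pow_le_pow_right (by norm_num) (by omega)
    exact (Nat.pow_le_pow_iff_left (by norm_num)).1 h3
  have hk0 := key 0 (by simp)
  rw [pow_zero, one_mul] at hk0
  have hom10 : 10 ≤ omg (lam k s) + 1 := by
    have h2 : 1 ≤ lam k s :=
      Nat.mul_pos (Nat.mul_pos (by norm_num) (Nat.succ_pos _)) (Nat.succ_pos _)
    have h3 : 512 * 103 ^ 2 * 1 * 300 ≤ omg (lam k s) := by
      unfold omg
      exact Nat.mul_le_mul (Nat.mul_le_mul (Nat.mul_le_mul le_rfl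
        (Nat.pow_le_pow_left (by omega) 2)) h2) (by omega)
    exact le_trans (by norm_num) (h3.trans (Nat.le_succ _))
  refine ⟨by omega, ?_, fun σ hσ => ⟨key σ hσ, ?_⟩⟩
  · have e1 : 2 * (s + 2) ≤ (k + 4) * (s + 2) ^ 4 :=
      Nat.mul_le_mul (by omega) (Nat.le_self_pow (by norm_num) _)
    omega
  · have e1 := key σ hσ
    have e2 : 2 ^ σ * 10 ≤ 2 ^ σ * (omg (lam k s) + 1) := Nat.mul_le_mul_left _ hom10
    have e3 : σ < 2 ^ σ := Nat.lt_two_pow_self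
    omega

end Pool.Agent.H23.OM
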