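import Pool.Agent.H75.OM.TD
import Pool.Agent.H23.OM.NMA

/-!
# Row NMB of `omn_modules`: the last numerical condition
-/

set_option autoImplicit false

namespace Pool.Agent.H23.OM

open Finset Pool.Agent.H6.NB Pool.Agent.H70.OQ Pool.Agent.H70.EH Pool.Agent.H70.EI
  Pool.Agent.H78.XQ Pool.Agent.H75.OM

theorem nmb_size (k s t om w l K D : ℕ) (hK : K = k + 15) (hD : D = 1792 * (k + 13))
    (hs0 : 2 ^ (D * (k + 24) + 110) + 2 ^ 16 + (2 * K + 26) + (2 * (k + 4) + 4) ≤ s)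
    (ht : t = mm k s) (hom : om ≤ s) (hw : w = (2 ^ t + 1) * K + 5 * s + om + 20)
    (hl : l = Nat.log 2 (64 * (128 * w) ^ (2 * K) * (5 * s + om + 20)) + 1) :
    s * (siz s om l (dic k s) + 1) ≤ s ^ (66 * K + 9 * D + 18) := by
  have hc0 : 0 < 2 ^ (D * (k + 24) + 110) := Nat.two_pow_pos _
  have h16 : (2 : ℕ) ^ 16 = 65536 := by norm_num
  have hs16 : 65536 ≤ s := by omega
  have hsK : 2 * K + 26 ≤ s := by omega
  have hsD : 2 ^ (D * (k + 24) + 110) ≤ s := by omega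
  have hs4 : 2 * (k + 4) ≤ s := by omega
  have hs1 : 1 ≤ s := by omega
  have e1 : s + 2 ≤ s ^ 2 := by
    have : 2 * s ≤ s ^ 2 := by rw [sq]; exact Nat.mul_le_mul_right _ (by omega)
    omega
  have e2 : 2 ^ t ≤ s ^ 9 := by
    calc 2 ^ t ≤ 2 * (k + 4) * (s + 2) ^ 4 := by rw [ht]; exact mm_le k s
      _ ≤ s * (s ^ 2) ^ 4 := by
          refine Nat.mul_le_mul hs4 (Nat.pow_le_pow_left e1 _)
      _ = s ^ 9 := by ring
  -- the dictionary
  have e3 : 2 ^ (14 * lam k s + 110) ≤ s ^ (9 * D + 1) := by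
    have h1 : 14 * lam k s + 110 = t * D + (D * (k + 24) + 110) := by
      unfold lam
      rw [← ht, hD]
      ring
    rw [h1, pow_add, pow_mul]
    calc (2 ^ t) ^ D * 2 ^ (D * (k + 24) + 110) ≤ (s ^ 9) ^ D * s :=
          Nat.mul_le_mul (Nat.pow_le_pow_left e2 _) hsD
      _ = s ^ (9 * D + 1) := by rw [← pow_mul, pow_succ]
  have e4 : dic k s + 1 ≤ s ^ (9 * D + 2) := by
    unfold dic
    have h1 : (s + 1) ^ 2 ≤ s ^ 4 := by
      calc (s + 1) ^ 2 ≤ (s ^ 2) ^ 2 := Nat.pow_le_pow_left (by omega) _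
        _ = s ^ 4 := by ring
    have h2 : s ^ 4 ≤ s ^ (9 * D + 1) := Nat.pow_le_pow_right hs1 (by omega)
    have h3 : 1 ≤ s ^ (9 * D + 1) := Nat.one_le_pow _ _ hs1
    have h4 : s ^ (9 * D + 2) = s ^ (9 * D + 1) * s := by rw [← pow_succ]
    have h5 : s ^ (9 * D + 1) * 3 ≤ s ^ (9 * D + 1) * s := Nat.mul_le_mul_left _ (by omega)
    omega
  -- the width
  have e5 : w ≤ s ^ 10 := by
    have h1 : s ≤ s ^ 9 := Nat.le_self_pow (by norm_num) _
    have h2 : 1 ≤ s ^ 9 := Nat.one_le_pow _ _ hs1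
    have h3 : (2 ^ t + 1) * K ≤ (s ^ 9 + s ^ 9) * K := Nat.mul_le_mul_right _ (by omega)
    have h4 : s ^ 9 * (2 * K + 26) ≤ s ^ 9 * s := Nat.mul_le_mul_left _ hsK
    have h5 : s ^ 10 = s ^ 9 * s := by ring
    have h6 : (s ^ 9 + s ^ 9) * K = s ^ 9 * (2 * K) := by ring
    have h7 : s ^ 9 * (2 * K + 26) = s ^ 9 * (2 * K) + 26 * s ^ 9 := by ring
    omega
  have e6 : 128 * w ≤ s ^ 11 := by
    calc 128 * w ≤ s * s ^ 10 := Nat.mul_le_mul (by omega) e5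
      _ = s ^ 11 := by ring
  have e7 : 5 * s + om + 20 ≤ s ^ 2 := by
    have : 7 * s ≤ s ^ 2 := by rw [sq]; exact Nat.mul_le_mul_right _ (by omega)
    omega
  have e8 : 2 ^ l ≤ s ^ (22 * K + 3) := by
    have hw0 : 0 < 128 * w := by omega
    have hM : 64 * (128 * w) ^ (2 * K) * (5 * s + om + 20) ≠ 0 :=
      (Nat.mul_pos (Nat.mul_pos (by norm_num) (Nat.pow_pos hw0)) (by omega)).ne'
    have h1 : 2 ^ l ≤ 2 * (64 * (128 * w) ^ (2 * K) * (5 * s + om + 20)) := by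
      rw [hl, pow_succ, mul_comm]
      exact Nat.mul_le_mul_left _ (Nat.pow_log_le_self 2 hM)
    calc 2 ^ l ≤ 2 * (64 * (128 * w) ^ (2 * K) * (5 * s + om + 20)) := h1
      _ = 128 * (128 * w) ^ (2 * K) * (5 * s + om + 20) := by ring
      _ ≤ s * (s ^ 11) ^ (2 * K) * s ^ 2 :=
          Nat.mul_le_mul (Nat.mul_le_mul (by omega) (Nat.pow_le_pow_left e6 _)) e7
      _ = s ^ (22 * K + 3) := by rw [← pow_mul]; ring
  have e9 : 2 ^ (3 * l + 16) ≤ s ^ (66 * K + 10) := by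
    calc 2 ^ (3 * l + 16) = (2 ^ l) ^ 3 * 2 ^ 16 := by rw [pow_add, ← pow_mul, mul_comm 3 l]
      _ ≤ (s ^ (22 * K + 3)) ^ 3 * s := Nat.mul_le_mul (Nat.pow_le_pow_left e8 _) (by omega)
      _ = s ^ (66 * K + 10) := by
          rw [← pow_mul, ← pow_succ]
          exact congrArg (fun n => s ^ n) (by ring)
  have e14 : 3 * s ≤ s ^ 2 := by rw [sq]; exact Nat.mul_le_mul_right _ (by omega)
  have e12 : s + om + 2 ≤ s ^ 2 := by omega
  have e13 : om + 2 ≤ s ^ 2 := by omega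
  have e10 : siz s om l (dic k s) ≤ s ^ (66 * K + 9 * D + 16) := by
    unfold siz
    calc 2 ^ (3 * l + 16) * (s + om + 2) * (om + 2) * (dic k s + 1) ≤
        s ^ (66 * K + 10) * s ^ 2 * s ^ 2 * s ^ (9 * D + 2) :=
          Nat.mul_le_mul (Nat.mul_le_mul (Nat.mul_le_mul e9 e12) e13) e4
      _ = s ^ (66 * K + 9 * D + 16) := by
          rw [← pow_add, ← pow_add, ← pow_add]
          exact congrArg (fun n => s ^ n) (by ring)
  have e11 : siz s om l (dic k s) + 1 ≤ s ^ (66 * K + 9 * D + 17) := by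
    have h1 : 1 ≤ s ^ (66 * K + 9 * D + 16) := Nat.one_le_pow _ _ hs1
    have h2 : s ^ (66 * K + 9 * D + 16) * 2 ≤ s ^ (66 * K + 9 * D + 16) * s :=
      Nat.mul_le_mul_left _ (by omega)
    have h3 : s ^ (66 * K + 9 * D + 17) = s ^ (66 * K + 9 * D + 16) * s := by rw [← pow_succ]
    omega
  calc s * (siz s om l (dic k s) + 1) ≤ s * s ^ (66 * K + 9 * D + 17) :=
        Nat.mul_le_mul_left _ e11
    _ = s ^ (66 * K + 9 * D + 18) := by rw [← pow_succ']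

theorem nmb_real (s om w l K t : ℕ) (hK1 : 1 ≤ K) (hw : w = (2 ^ t + 1) * K + 5 * s + om + 20)
    (hl : l = Nat.log 2 (64 * (128 * w) ^ (2 * K) * (5 * s + om + 20)) + 1) :
    (2 : ℝ) ^ (s + om + 2) * (2 * (((((2 ^ 2 ^ t : ℕ) : ℝ) + 1) ^ K / 2 ^ w) +
      4 * Real.exp (-(2 ^ l * ((1 / (128 * (w : ℝ))) ^ K) ^ 2 / 16)))) ≤ 1 / 2 ^ (3 * s) := by
  set N : ℕ := 5 * s + om + 20 with hN
  have hw0 : 0 < w := by omega
  have hwr : (0 : ℝ) < 128 * (w : ℝ) := by positivity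
  -- the first term
  have h1 : (((2 ^ 2 ^ t : ℕ) : ℝ) + 1) ^ K / 2 ^ w ≤ 1 / 2 ^ N := by
    have e1 : (((2 ^ 2 ^ t : ℕ) : ℝ) + 1) ≤ 2 ^ (2 ^ t + 1) := by
      push_cast
      rw [pow_succ]
      have : (1 : ℝ) ≤ 2 ^ 2 ^ t := one_le_pow₀ (by norm_num)
      linarith
    have e2 : (((2 ^ 2 ^ t : ℕ) : ℝ) + 1) ^ K ≤ 2 ^ ((2 ^ t + 1) * K) := by
      rw [pow_mul]
      exact pow_le_pow_left₀ (by positivity) e1 _
    have e3 : w = (2 ^ t + 1) * K + N := by omega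
    rw [e3, pow_add, div_le_div_iff₀ (by positivity) (by positivity), one_mul]
    exact mul_le_mul_of_nonneg_right e2 (by positivity)
  -- the second term
  have h2 : Real.exp (-(2 ^ l * ((1 / (128 * (w : ℝ))) ^ K) ^ 2 / 16)) ≤ 1 / 2 ^ N := by
    have e1 : 64 * (128 * w) ^ (2 * K) * N < 2 ^ l := by
      rw [hl]
      exact Nat.lt_pow_succ_log_self (by norm_num) _
    have e2 : (64 : ℝ) * (128 * (w : ℝ)) ^ (2 * K) * N < 2 ^ l := by exact_mod_cast e1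
    have e3 : ((1 / (128 * (w : ℝ))) ^ K) ^ 2 = 1 / (128 * (w : ℝ)) ^ (2 * K) := by
      rw [← pow_mul, one_div_pow, mul_comm K 2]
    have e4 : (N : ℝ) ≤ 2 ^ l * ((1 / (128 * (w : ℝ))) ^ K) ^ 2 / 16 := by
      rw [e3, mul_one_div, div_div, le_div_iff₀ (by positivity)]
      have : (0 : ℝ) ≤ (128 * (w : ℝ)) ^ (2 * K) * N := by positivity
      linarith
    have e5 : Real.exp (-(N : ℝ)) ≤ 1 / 2 ^ N := by
      have h3 : Real.exp (-1) ≤ 1 / 2 := by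
        have := Real.exp_neg_one_lt_half
        linarith
      calc Real.exp (-(N : ℝ)) = Real.exp (-1) ^ N := by
            rw [← Real.exp_nat_mul]; congr 1; ring
        _ ≤ (1 / 2) ^ N := pow_le_pow_left₀ (Real.exp_pos _).le h3 _
        _ = 1 / 2 ^ N := one_div_pow _ _
    exact (Real.exp_le_exp.2 (by linarith)).trans e5
  have h3 : 2 * (((((2 ^ 2 ^ t : ℕ) : ℝ) + 1) ^ K / 2 ^ w) +
      4 * Real.exp (-(2 ^ l * ((1 / (128 * (w : ℝ))) ^ K) ^ 2 / 16))) ≤ 16 * (1 / 2 ^ N) := by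
    have : (0 : ℝ) ≤ 1 / 2 ^ N := by positivity
    linarith
  calc (2 : ℝ) ^ (s + om + 2) * (2 * (((((2 ^ 2 ^ t : ℕ) : ℝ) + 1) ^ K / 2 ^ w) +
      4 * Real.exp (-(2 ^ l * ((1 / (128 * (w : ℝ))) ^ K) ^ 2 / 16)))) ≤
      2 ^ (s + om + 2) * (16 * (1 / 2 ^ N)) := mul_le_mul_of_nonneg_left h3 (by positivity)
    _ = 2 ^ (s + om + 6) / 2 ^ N := by
        rw [show s + om + 6 = (s + om + 2) + 4 by ring, pow_add _ (s + om + 2) 4]
        norm_num
        ring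
    _ ≤ 1 / 2 ^ (3 * s) := by
        rw [div_le_div_iff₀ (by positivity) (by positivity), one_mul, ← pow_add]
        exact pow_le_pow_right₀ (by norm_num) (by omega)

theorem nmb_first (w K N : ℕ) (hK : 1 ≤ K) (hN : 1 ≤ N) :
    4 * w * (128 * w) ^ K ≤ 64 * (128 * w) ^ (2 * K) * N := by
  have h2 : 4 * w ≤ (128 * w) ^ K :=
    (Nat.mul_le_mul_right _ (by norm_num)).trans (Nat.le_self_pow (by omega) _)
  calc 4 * w * (128 * w) ^ K ≤ (128 * w) ^ K * (128 * w) ^ K := Nat.mul_le_mul_right _ h2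
    _ = (128 * w) ^ (2 * K) := by rw [← pow_add, two_mul]
    _ ≤ (64 * N) * (128 * w) ^ (2 * K) :=
        Nat.le_mul_of_pos_left _ (Nat.mul_pos (by norm_num) hN)
    _ = 64 * (128 * w) ^ (2 * K) * N := by
        rw [mul_assoc, mul_comm N, mul_assoc]

theorem pf_NMB : T_NMB := by
  intro k
  refine ⟨66 * (k + 15) + 9 * (1792 * (k + 13)) + 18,
    2 ^ (1792 * (k + 13) * (k + 24) + 110) + 2 ^ 16 + (2 * (k + 15) + 26) + (2 * (k + 4) + 4),
    fun s hs hom => ?_⟩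
  set om := omg (lam k s) with homd
  set t := mm k s with ht
  set w : ℕ := (2 ^ t + 1) * (k + 15) + 5 * s + om + 20 with hw
  set l : ℕ := Nat.log 2 (64 * (128 * w) ^ (2 * (k + 15)) * (5 * s + om + 20)) + 1 with hl
  refine ⟨l, w, by omega, by omega, ?_, ?_, ?_⟩
  · have h1 : 64 * (128 * w) ^ (2 * (k + 15)) * (5 * s + om + 20) < 2 ^ l :=
      Nat.lt_pow_succ_log_self (by norm_num) _
    exact (nmb_first w (k + 15) (5 * s + om + 20) (by omega) (by omega)).trans h1.le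
  · exact nmb_real s om w l (k + 15) t (by omega) hw hl
  · exact nmb_size k s t om w l (k + 15) (1792 * (k + 13)) rfl rfl hs ht hom hw hl

end Pool.Agent.H23.OM
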